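import Pool.Agent.Helper194.HQ.F

set_option autoImplicit false

namespace Pool.Agent.Results.MP_9c87eb_gt.CircleTimesCube

/-- The Hilbert cube `Q = [0,1]^ω`. -/
abbrev Q : Type := ℕ → unitInterval

/-- The space of embeddings of `F` into the pseudo-interior `s = (0,1)^ω` (with the compact-open
topology, that is, the topology of uniform convergence for compact `F`). -/
abbrev Emb (F : Type) [TopologicalSpace F] : Type :=
  {φ : C(F, ℕ → Set.Ioo (0:ℝ) 1) // Topology.IsEmbedding ⇑φ}

/-- Two embeddings lie in one orbit of the homeomorphism group of `F`. -/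
def SameOrbit (F : Type) [TopologicalSpace F] (φ ψ : Emb F) : Prop :=
  ∃ h : F ≃ₜ F, ∀ x : F, ψ.1 x = φ.1 (h x)

/-- The moduli space: the orbit space of the embedding space. -/
def Moduli (F : Type) [TopologicalSpace F] : Type := Quot (SameOrbit F)

/-- The moduli space carries the quotient topology. -/
instance (F : Type) [TopologicalSpace F] : TopologicalSpace (Moduli F) :=
  inferInstanceAs (TopologicalSpace (Quot (SameOrbit F)))

/-- `F` is a compact `Q`-manifold. -/
def IsCompactQManifold (F : Type) [TopologicalSpace F] : Prop :=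
  T2Space F ∧ CompactSpace F ∧ ∀ x : F, ∃ U : Set F, IsOpen U ∧ x ∈ U ∧
    ∃ V : Set Q, IsOpen V ∧ Nonempty (U ≃ₜ V)

/-- Every continuous map from a closed subset `A` of the Hilbert cube to `M` extends continuously
to an open neighbourhood of `A`. -/
def ExtendsOverQ (M : Type) [TopologicalSpace M] : Prop :=
  ∀ A : Set Q, IsClosed A → ∀ f : C(A, M), ∃ U : Set Q, IsOpen U ∧ ∃ hAU : A ⊆ U,
    ∃ g : C(U, M), ∀ a : A, g (Set.inclusion hAU a) = f a

/-- The moduli space of the compact `Q`-manifold `S¹ × Q` is not an `ANE` for compact metric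
spaces: some continuous map from a closed subset `A` of the Hilbert cube to the moduli space has
no continuous extension to any neighbourhood of `A`. -/
theorem result : IsCompactQManifold (Circle × Q) ∧ ¬ ExtendsOverQ (Moduli (Circle × Q)) := by
  refine ⟨⟨inferInstance, inferInstance, HQ.Fman⟩, ?_⟩
  intro h
  apply HQ.no_ext
  intro A hA f
  exact h A hA f

end Pool.Agent.Results.MP_9c87eb_gt.CircleTimesCube
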